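import Mathlib

set_option autoImplicit false

/-!
# The coarsening of a valuation ring by the values which are small relative to an element
-/

namespace Pool.Agent.NIPFields.LI

section

variable {E : Type*} [Field E] {A : ValuationSubring E} {c : E}

theorem mem_iff_val {z : E} : z ∈ A ↔ A.valuation z ≤ 1 := (A.valuation_le_one_iff z).symm

theorem coarse_sub (hc : c ∈ A) {z : E} (hz : z ∈ A) (n : ℕ) : c * z ^ n ∈ A :=
  A.mul_mem _ _ hc (pow_mem hz n)

/-- The coarsening of `A` by the values which are small relative to `c`. -/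
noncomputable def coarse (hc : c ∈ A) : ValuationSubring E where
  carrier := {z | ∀ n : ℕ, c * z ^ n ∈ A}
  mul_mem' := by
    intro x y hx hy n
    rcases le_total (A.valuation x) (A.valuation y) with h | h
    · rw [mem_iff_val]
      refine le_trans ?_ (mem_iff_val.1 (hy (2 * n)))
      rw [map_mul, map_mul, map_pow, map_pow, map_mul, two_mul, pow_add, mul_pow]
      gcongr
    · rw [mem_iff_val]
      refine le_trans ?_ (mem_iff_val.1 (hx (2 * n)))
      rw [map_mul, map_mul, map_pow, map_pow, map_mul, two_mul, pow_add, mul_pow]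
      gcongr
  one_mem' := by
    intro n
    rw [one_pow, mul_one]
    exact hc
  zero_mem' := by
    intro n
    exact coarse_sub hc A.zero_mem n
  add_mem' := by
    intro x y hx hy n
    have hadd := A.valuation.map_add x y
    rcases le_total (A.valuation x) (A.valuation y) with h | h
    · rw [max_eq_right h] at hadd
      rw [mem_iff_val]
      refine le_trans ?_ (mem_iff_val.1 (hy n))
      rw [map_mul, map_mul, map_pow, map_pow]
      gcongr
    · rw [max_eq_left h] at hadd
      rw [mem_iff_val]
      refine le_trans ?_ (mem_iff_val.1 (hx n))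
      rw [map_mul, map_mul, map_pow, map_pow]
      gcongr
  neg_mem' := by
    intro x hx n
    have h := hx n
    rw [mem_iff_val, map_mul, map_pow] at h ⊢
    rwa [Valuation.map_neg]
  mem_or_inv_mem' := by
    intro x
    rcases A.mem_or_inv_mem x with h | h
    · exact Or.inl fun n => coarse_sub hc h n
    · exact Or.inr fun n => coarse_sub hc h n

theorem mem_coarse (hc : c ∈ A) {z : E} : z ∈ coarse hc ↔ ∀ n : ℕ, c * z ^ n ∈ A := Iff.rfl

theorem le_coarse (hc : c ∈ A) : A ≤ coarse hc := fun _ hz n => coarse_sub hc hz n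

theorem coarse_lt (hc : c ∈ A) {z : E} {n : ℕ} (h : A.valuation (z ^ n) < A.valuation c) :
    (coarse hc).valuation z < 1 := by
  by_contra hcon
  rw [not_lt] at hcon
  have hz0 : z ≠ 0 := by
    rintro rfl
    rw [map_zero] at hcon
    exact absurd hcon (not_le.2 zero_lt_one)
  have h1 : z⁻¹ ∈ coarse hc := by
    rw [mem_iff_val, map_inv₀]
    exact inv_le_one_of_one_le₀ hcon
  have h2 := h1 n
  have hv : A.valuation (z ^ n) ≠ 0 := by
    rw [Ne, map_eq_zero]
    exact pow_ne_zero _ hz0
  rw [mem_iff_val, map_mul, inv_pow, map_inv₀, ← div_eq_mul_inv,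
    div_le_one₀ (zero_lt_iff.2 hv)] at h2
  exact absurd h (not_lt.2 h2)

theorem coarse_val_one (hc : c ∈ A) {z : E} (hz : z ∈ coarse hc) (hzi : z⁻¹ ∈ coarse hc)
    (hz0 : z ≠ 0) : (coarse hc).valuation z = 1 := by
  apply le_antisymm (mem_iff_val.1 hz)
  have h1 := mem_iff_val.1 hzi
  rw [map_inv₀] at h1
  exact (inv_le_one₀ (zero_lt_iff.2 ((map_ne_zero _).2 hz0))).1 h1

/-- An element of `A` of infinitesimal value gives infinitely many residue classes. -/
theorem infinite_residue (hc : c ∈ A) {x : E} (hx1 : A.valuation x < 1) (hx0 : x ≠ 0)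
    (hx : x⁻¹ ∈ coarse hc) : Infinite (IsLocalRing.ResidueField (coarse hc)) := by
  have hxA : x ∈ A := mem_iff_val.2 hx1.le
  have hxR : x ∈ coarse hc := le_coarse hc hxA
  have hxv := coarse_val_one hc hxR hx hx0
  have key : ∀ i j : ℕ, i < j → IsLocalRing.residue (coarse hc) (⟨x, hxR⟩ : coarse hc) ^ i ≠
      IsLocalRing.residue (coarse hc) (⟨x, hxR⟩ : coarse hc) ^ j := by
    intro i j hij h
    rw [← map_pow, ← map_pow, ← sub_eq_zero, ← map_sub, IsLocalRing.residue_eq_zero_iff,
      (coarse hc).valuation_lt_one_iff] at h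
    have h1 : (((⟨x, hxR⟩ : coarse hc) ^ i - (⟨x, hxR⟩ : coarse hc) ^ j : coarse hc) : E) =
        x ^ i * (1 + -x ^ (j - i)) := by
      push_cast
      rw [mul_add, mul_one, mul_neg, ← pow_add, Nat.add_sub_cancel' hij.le]
      ring
    rw [h1, map_mul, map_pow, hxv, one_pow, one_mul] at h
    have h2 : A.valuation (-x ^ (j - i)) < 1 := by
      rw [Valuation.map_neg, map_pow]
      exact pow_lt_one₀ zero_le hx1 (by omega)
    have h3 : A.valuation (1 + -x ^ (j - i)) = 1 := Valuation.map_one_add_of_lt _ h2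
    have h4 : (1 + -x ^ (j - i))⁻¹ ∈ coarse hc := by
      refine le_coarse hc (mem_iff_val.2 ?_)
      rw [map_inv₀, h3, inv_one]
    have h5 : (1 + -x ^ (j - i)) ≠ 0 := by
      intro h0
      rw [h0, map_zero] at h3
      exact zero_ne_one h3
    have h6 := mem_iff_val.1 h4
    rw [map_inv₀] at h6
    exact absurd h (not_lt.2 ((inv_le_one₀ (zero_lt_iff.2 ((map_ne_zero _).2 h5))).1 h6))
  refine Infinite.of_injective
    (fun n : ℕ => IsLocalRing.residue (coarse hc) (⟨x, hxR⟩ : coarse hc) ^ n) ?_
  intro i j hij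
  rcases lt_trichotomy i j with h | h | h
  · exact absurd hij (key i j h)
  · exact h
  · exact absurd hij.symm (key j i h)

end

end Pool.Agent.NIPFields.LI
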