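import Mathlib
import Pool.Agent.NIPFields.KSW

set_option autoImplicit false

/-!
# Powers near `1` in a field with a coarse valuation ring of residue characteristic `ℓ`
-/

namespace Pool.Agent.NIPFields.LI

open IsLocalRing Polynomial

/-- A monic polynomial with enough roots is the product of the linear factors. -/
theorem eval_eq_prod {F : Type*} [Field F] {f : F[X]} (hf : f.Monic) {n : ℕ}
    (hn : f.natDegree = n) {r : ℕ → F} (hr : ∀ i < n, ∀ j < n, r i = r j → i = j)
    (h0 : ∀ i < n, f.eval (r i) = 0) (z : F) : f.eval z = ∏ i ∈ Finset.range n, (z - r i) := by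
  have hd : ∏ i ∈ Finset.range n, (X - C (r i)) ∣ f := by
    refine Finset.prod_dvd_of_coprime ?_ ?_
    · intro i hi j hj hij
      rw [Finset.mem_coe, Finset.mem_range] at hi hj
      refine isCoprime_X_sub_C_of_isUnit_sub (sub_ne_zero.2 fun h => hij ?_).isUnit
      exact hr i hi j hj h
    · intro i hi
      rw [Finset.mem_range] at hi
      exact dvd_iff_isRoot.2 (h0 i hi)
  have hm : (∏ i ∈ Finset.range n, (X - C (r i))).Monic :=
    monic_prod_of_monic _ _ fun i _ => monic_X_sub_C _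
  have he := eq_of_monic_of_dvd_of_natDegree_le hm hf hd (by
    rw [natDegree_prod_of_monic _ _ fun i _ => monic_X_sub_C _]
    simp [hn])
  rw [he, eval_prod]
  simp

theorem prod_sub_succ {F : Type*} [Field F] {p : ℕ} [hp : Fact p.Prime] [CharP F p] (z : F) :
    ∏ i ∈ Finset.range (p - 1), (z - ((i + 1 : ℕ) : F)) = z ^ (p - 1) - 1 := by
  have h2 := hp.out.two_le
  have h := eval_eq_prod (F := F) (f := X ^ (p - 1) - 1) (n := p - 1)
    (r := fun i => ((i + 1 : ℕ) : F)) (monic_X_pow_sub_C 1 (by omega))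
    (natDegree_X_pow_sub_C (n := p - 1) (r := (1 : F))) (fun i hi j hj h => ?_) (fun i hi => ?_) z
  · rw [← h]
    simp
  · have := (CharP.natCast_eq_natCast F p).1 h
    have h3 := Nat.ModEq.eq_of_lt_of_lt this (by omega) (by omega)
    omega
  · have h3 : ((i + 1 : ℕ) : ZMod p) ≠ 0 := by
      rw [Ne, ZMod.natCast_eq_zero_iff]
      intro h
      have := Nat.le_of_dvd (by omega) h
      omega
    have h4 := ZMod.pow_card_sub_one_eq_one h3
    have h5 := congrArg (ZMod.castHom (dvd_refl p) F) h4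
    rw [map_pow, map_natCast, map_one] at h5
    simp only [eval_sub, eval_pow, eval_X, eval_one]
    rw [h5, sub_self]

section

variable {E : Type*} [Field E] {R : ValuationSubring E}

theorem residue_zero_iff (x : R) : residue R x = 0 ↔ R.valuation (x : E) < 1 := by
  rw [residue_eq_zero_iff, ← R.valuation_lt_one_iff]

theorem residue_eq_iff (x y : R) : residue R x = residue R y ↔ R.valuation (x - y : E) < 1 := by
  rw [← sub_eq_zero, ← map_sub, residue_zero_iff]
  rfl

theorem mem_of_lt {x : E} (h : R.valuation x < 1) : x ∈ R :=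
  (R.valuation_le_one_iff x).1 h.le

end

section

variable {E : Type*} [Field E] {B R : ValuationSubring E} {ℓ : ℕ} {a : E}

theorem mem_B (hBR : B ≤ R) {m : E} (hm : R.valuation m < 1) : m ∈ B := by
  by_contra h
  have h1 : m⁻¹ ∈ R := hBR ((B.mem_or_inv_mem m).resolve_left h)
  rw [← R.valuation_le_one_iff, map_inv₀] at h1
  have h0 : R.valuation m ≠ 0 := by
    intro h0
    rw [map_eq_zero] at h0
    exact h (h0 ▸ B.zero_mem)
  have := (inv_le_one₀ (zero_lt_iff.2 h0)).1 h1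
  exact absurd hm (not_lt.2 this)

theorem val_unit {z : E} (hz : R.valuation z < 1) : R.valuation (1 + z) = 1 :=
  Valuation.map_one_add_of_lt _ hz

theorem ne_zero_of_unit {z : E} (hz : R.valuation z = 1) : z ≠ 0 := by
  rintro rfl
  rw [map_zero] at hz
  exact zero_ne_one hz

theorem pert1 (hBR : B ≤ R) (haB : ∀ b ∈ B, ∃ y : E, 1 + a * b = y ^ ℓ) {z m : E}
    (hz : R.valuation z = 1) (hm : R.valuation m < 1)
    (h : ∃ y : E, z = y ^ ℓ) : ∃ y : E, z + a * m = y ^ ℓ := by
  obtain ⟨y, hy⟩ := h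
  have hz0 := ne_zero_of_unit hz
  obtain ⟨y', hy'⟩ := haB (m / z) (mem_B hBR (by rw [map_div₀, hz, div_one]; exact hm))
  refine ⟨y * y', ?_⟩
  rw [mul_pow, ← hy, ← hy']
  field_simp

/-- The case of residue characteristic different from `ℓ`. -/
theorem star_tame (hBR : B ≤ R) (ha : R.valuation a < 1)
    (haB : ∀ b ∈ B, ∃ y : E, 1 + a * b = y ^ ℓ) (hℓ : R.valuation (ℓ : E) = 1) {u : E} (hu : u ∈ R) :
    ∃ y : E, 1 + a * u = y ^ ℓ := by
  have hl0 : (ℓ : E) ≠ 0 := ne_zero_of_unit hℓ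
  have hu1 : R.valuation u ≤ 1 := (R.valuation_le_one_iff u).2 hu
  have hw : R.valuation (a * u / ℓ) < 1 := by
    rw [map_div₀, hℓ, div_one, map_mul]
    exact lt_of_le_of_lt (mul_le_of_le_one_right' hu1) ha
  obtain ⟨k, hk⟩ := powAddExpansion (1 : R) (⟨a * u / ℓ, mem_of_lt hw⟩ : R) ℓ
  have hk' := congrArg (fun x : R => (x : E)) hk
  simp only [one_pow, mul_one] at hk'
  push_cast at hk'
  have h1 : 1 + a * u = (1 + a * u / ℓ) ^ ℓ + a * (-(k * (u / ℓ) * (a * u / ℓ))) := by
    rw [hk']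
    field_simp
    ring
  rw [h1]
  refine pert1 hBR haB ?_ ?_ ⟨_, rfl⟩
  · rw [map_pow, val_unit hw, one_pow]
  · rw [Valuation.map_neg, map_mul, map_mul]
    have hk1 : R.valuation (k : E) ≤ 1 := R.valuation_le_one k
    have hul : R.valuation (u / ℓ) ≤ 1 := by rw [map_div₀, hℓ, div_one]; exact hu1
    exact lt_of_le_of_lt (mul_le_of_le_one_left' (mul_le_one' hk1 hul)) hw

end

/-! ### The wild case -/

section wild

variable {E : Type*} [Field E] {R : ValuationSubring E} {ℓ : ℕ}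

/-- `θ i = 1 + ζ + ... + ζ ^ (i - 1)` -/
def θ {A : Type*} [CommRing A] (ζ : A) (i : ℕ) : A := ∑ j ∈ Finset.range i, ζ ^ j

theorem θ_mul {A : Type*} [CommRing A] (ζ : A) (i : ℕ) : θ ζ i * (ζ - 1) = ζ ^ i - 1 :=
  geom_sum_mul ζ i

/-- the product `∏ (z - θ i)` -/
def G {A : Type*} [CommRing A] (ζ : A) (ℓ : ℕ) (z : A) : A := ∏ i ∈ Finset.range ℓ, (z - θ ζ i)

theorem pow_formula (hℓ : 0 < ℓ) {ζ : E} (hζ : IsPrimitiveRoot ζ ℓ) (z : E) :
    (1 + (ζ - 1) * z) ^ ℓ = 1 + (ζ - 1) ^ ℓ * G ζ ℓ z := by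
  have h := eval_eq_prod (F := E) (f := X ^ ℓ - 1) (n := ℓ)
    (r := fun i => ζ ^ i) (monic_X_pow_sub_C 1 hℓ.ne')
    (natDegree_X_pow_sub_C (n := ℓ) (r := (1 : E))) (fun i hi j hj h => hζ.pow_inj hi hj h)
    (fun i hi => by
      simp only [eval_sub, eval_pow, eval_X, eval_one]
      rw [← pow_mul, mul_comm, pow_mul, hζ.pow_eq_one, one_pow, sub_self]) (1 + (ζ - 1) * z)
  simp only [eval_sub, eval_pow, eval_X, eval_one] at h
  have h2 : ∏ i ∈ Finset.range ℓ, (1 + (ζ - 1) * z - ζ ^ i) = (ζ - 1) ^ ℓ * G ζ ℓ z := by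
    rw [G, ← Finset.card_range ℓ, ← Finset.prod_const, Finset.card_range,
      ← Finset.prod_mul_distrib]
    refine Finset.prod_congr rfl fun i _ => ?_
    have := θ_mul ζ i
    linear_combination this
  rw [← h2, ← h]
  ring

theorem charP_residue [hℓ : Fact ℓ.Prime] (hℓR : R.valuation (ℓ : E) < 1) :
    CharP (ResidueField R) ℓ := by
  obtain ⟨q, hq⟩ := CharP.exists (ResidueField R)
  have h1 : ((ℓ : ℕ) : ResidueField R) = 0 := by
    rw [← map_natCast (residue R), residue_zero_iff]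
    exact_mod_cast hℓR
  have h2 : q ∣ ℓ := (CharP.cast_eq_zero_iff _ q ℓ).1 h1
  rcases (Nat.dvd_prime hℓ.out).1 h2 with h | h
  · exact absurd h (CharP.char_ne_one (ResidueField R) q)
  · exact h ▸ hq

theorem exists_zeta [hℓ : Fact ℓ.Prime] (hℓR : R.valuation (ℓ : E) < 1) {ζ : E}
    (hζ : ζ ^ ℓ = 1) : ∃ ζ' : R, (ζ' : E) = ζ ∧ residue R ζ' = 1 := by
  have hv : R.valuation ζ = 1 := by
    have h1 : R.valuation ζ ^ ℓ = 1 := by rw [← map_pow, hζ, map_one]
    exact (pow_eq_one_iff_of_nonneg zero_le hℓ.out.ne_zero).1 h1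
  refine ⟨⟨ζ, (R.valuation_le_one_iff ζ).1 hv.le⟩, rfl, ?_⟩
  have := charP_residue hℓR
  have h1 : (⟨ζ, (R.valuation_le_one_iff ζ).1 hv.le⟩ : R) ^ ℓ = 1 := Subtype.ext hζ
  have h2 := congrArg (residue R) h1
  rw [map_pow, map_one] at h2
  have h3 : (residue R ⟨ζ, (R.valuation_le_one_iff ζ).1 hv.le⟩ - 1) ^ ℓ = 0 := by
    rw [sub_pow_char, h2, one_pow, sub_self]
  exact sub_eq_zero.1 (eq_zero_of_pow_eq_zero h3)

theorem residue_θ {ζ : R} (hζ1 : residue R ζ = 1) (i : ℕ) :
    residue R (θ ζ i) = (i : ResidueField R) := by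
  rw [θ, map_sum]
  simp [hζ1]

/-- the product without the factor `i = 0` -/
def H {A : Type*} [CommRing A] (ζ : A) (ℓ : ℕ) (z : A) : A :=
  ∏ i ∈ Finset.range (ℓ - 1), (z - θ ζ (i + 1))

theorem G_eq {A : Type*} [CommRing A] (hℓ : 0 < ℓ) (ζ z : A) : G ζ ℓ z = H ζ ℓ z * z := by
  obtain ⟨n, rfl⟩ : ∃ n, ℓ = n + 1 := ⟨ℓ - 1, by omega⟩
  rw [G, H, Finset.prod_range_succ']
  simp [θ]

theorem residue_H [Fact ℓ.Prime] [CharP (ResidueField R) ℓ] {ζ : R} (hζ1 : residue R ζ = 1)
    (z : R) : residue R (H ζ ℓ z) = residue R z ^ (ℓ - 1) - 1 := by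
  rw [H, map_prod, ← prod_sub_succ]
  refine Finset.prod_congr rfl fun i _ => ?_
  rw [map_sub, residue_θ hζ1]

theorem residue_G [hℓ : Fact ℓ.Prime] [CharP (ResidueField R) ℓ] {ζ : R} (hζ1 : residue R ζ = 1)
    (z : R) : residue R (G ζ ℓ z) = residue R z ^ ℓ - residue R z := by
  have h2 := hℓ.out.two_le
  rw [G_eq hℓ.out.pos, map_mul, residue_H hζ1]
  have : ℓ = (ℓ - 1) + 1 := by omega
  conv_rhs => rw [this, pow_succ]
  ring

theorem coe_θ (ζ : R) (i : ℕ) : ((θ ζ i : R) : E) = θ (ζ : E) i := by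
  simp [θ]

theorem coe_G (ζ z : R) : ((G ζ ℓ z : R) : E) = G (ζ : E) ℓ (z : E) := by
  simp [G, coe_θ]

theorem coe_H (ζ z : R) : ((H ζ ℓ z : R) : E) = H (ζ : E) ℓ (z : E) := by
  simp [H, coe_θ]

end wild

section cases

variable {E : Type*} [Field E] {B R : ValuationSubring E} {ℓ : ℕ} {a : E}

/-- The first case: one Newton step. -/
theorem star_case0 [hℓ : Fact ℓ.Prime] (hBR : B ≤ R)
    (haB : ∀ b ∈ B, ∃ y : E, 1 + a * b = y ^ ℓ) (hℓR : R.valuation (ℓ : E) < 1) {ζ : E}
    (hζ : IsPrimitiveRoot ζ ℓ) {u : E} (hu : u ∈ R)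
    (h : R.valuation (a * u) < R.valuation ((ζ - 1) ^ ℓ)) : ∃ y : E, 1 + a * u = y ^ ℓ := by
  have := charP_residue hℓR
  obtain ⟨ζ', rfl, hζ1⟩ := exists_zeta hℓR hζ.pow_eq_one
  have hl : R.valuation ((ζ' : E) - 1) < 1 := by
    have : residue R (ζ' - 1) = 0 := by rw [map_sub, hζ1, map_one, sub_self]
    exact (residue_zero_iff _).1 this
  have hl0 : (ζ' : E) - 1 ≠ 0 := sub_ne_zero.2 (hζ.ne_one hℓ.out.one_lt)
  have hll : R.valuation (((ζ' : E) - 1) ^ ℓ) ≠ 0 := by
    rw [Ne, map_eq_zero]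
    exact pow_ne_zero _ hl0
  set y : E := a * u / ((ζ' : E) - 1) ^ ℓ with hy
  have hy1 : R.valuation y < 1 := by
    rw [hy, map_div₀]
    exact (div_lt_one₀ (zero_lt_iff.2 hll)).2 h
  set y' : R := ⟨y, mem_of_lt hy1⟩ with hy'
  have hyr : residue R y' = 0 := (residue_zero_iff _).2 hy1
  have hay : a * u = ((ζ' : E) - 1) ^ ℓ * y := by
    rw [hy]
    field_simp
  -- `H y = -1 + μ`
  have hH : residue R (H ζ' ℓ y' + 1) = 0 := by
    rw [map_add, map_one, residue_H hζ1, hyr, zero_pow (by have := hℓ.out.two_le; omega)]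
    ring
  have hμ : R.valuation (H (ζ' : E) ℓ y + 1) < 1 := by
    have := (residue_zero_iff _).1 hH
    rwa [AddMemClass.coe_add, coe_H] at this
  have hHR : R.valuation (H (ζ' : E) ℓ y) ≤ 1 := by
    have := R.valuation_le_one (H ζ' ℓ y')
    rwa [coe_H] at this
  set m : E := (H (ζ' : E) ℓ y + 1) + ((ζ' : E) - 1) ^ ℓ * y * H (ζ' : E) ℓ y with hm
  have hm1 : R.valuation m < 1 := by
    refine lt_of_le_of_lt (R.valuation.map_add _ _) (max_lt hμ ?_)
    rw [map_mul]
    refine lt_of_le_of_lt (mul_le_of_le_one_right' hHR) ?_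
    rw [← hay]
    exact lt_of_lt_of_le h (by rw [map_pow]; exact pow_le_one₀ zero_le hl.le)
  obtain ⟨x, hx⟩ := haB (u * m) (mem_B hBR (by
    rw [map_mul]
    exact lt_of_le_of_lt (mul_le_of_le_one_left' ((R.valuation_le_one_iff u).2 hu)) hm1))
  have hpow := pow_formula hℓ.out.pos hζ y
  rw [G_eq hℓ.out.pos] at hpow
  have h1 : R.valuation (1 + ((ζ' : E) - 1) * y) = 1 := by
    refine val_unit ?_
    rw [map_mul]
    exact mul_lt_one_of_nonneg_of_lt_one_left zero_le hl hy1.le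
  have h10 := ne_zero_of_unit h1
  refine ⟨x / (1 + ((ζ' : E) - 1) * y), ?_⟩
  rw [div_pow, ← hx, eq_div_iff (pow_ne_zero _ h10), hpow, hm]
  linear_combination (-(H (ζ' : E) ℓ y)) * hay

/-- The second case: Artin-Schreier extensions of the residue field. -/
theorem star_case1 [hℓ : Fact ℓ.Prime] (hBR : B ≤ R)
    (haB : ∀ b ∈ B, ∃ y : E, 1 + a * b = y ^ ℓ) (hℓR : R.valuation (ℓ : E) < 1) {ζ : E}
    (hζ : IsPrimitiveRoot ζ ℓ) (hinf : Infinite (ResidueField R))
    (h : R.valuation a = R.valuation ((ζ - 1) ^ ℓ))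
    (hVC : ∃ n : ℕ, ∀ b : Fin n → E, ∃ J : Finset (Fin n), ∀ x : E,
      (∀ i, R.valuation (b i * x) < 1) → ∃ i, ¬ ((∃ y : E, 1 + b i * x = y ^ ℓ) ↔ i ∈ J))
    {u : E} (hu : u ∈ R) : ∃ y : E, 1 + a * u = y ^ ℓ := by
  classical
  have := charP_residue hℓR
  obtain ⟨ζ', rfl, hζ1⟩ := exists_zeta hℓR hζ.pow_eq_one
  have hl : R.valuation ((ζ' : E) - 1) < 1 := by
    have : residue R (ζ' - 1) = 0 := by rw [map_sub, hζ1, map_one, sub_self]
    exact (residue_zero_iff _).1 this
  have hl0 : (ζ' : E) - 1 ≠ 0 := sub_ne_zero.2 (hζ.ne_one hℓ.out.one_lt)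
  set Λ : E := ((ζ' : E) - 1) ^ ℓ with hΛ
  have hΛ0 : Λ ≠ 0 := pow_ne_zero _ hl0
  have hΛ1 : R.valuation Λ < 1 := by
    rw [hΛ, map_pow]
    exact pow_lt_one₀ zero_le hl hℓ.out.ne_zero
  have hll : R.valuation Λ ≠ 0 := by rwa [Ne, map_eq_zero]
  have ha0 : a ≠ 0 := by
    rintro rfl
    rw [map_zero] at h
    exact hll h.symm
  -- small multiples of `Λ`
  have hmB : ∀ z m : E, R.valuation z = 1 → R.valuation m < 1 → (∃ y : E, z = y ^ ℓ) →
      ∃ y : E, z + Λ * m = y ^ ℓ := by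
    intro z m hz hm hy
    have h1 := pert1 (m := Λ / a * m) hBR haB hz (by
      rw [map_mul, map_div₀, h, div_self hll, one_mul]; exact hm) hy
    have h2 : a * (Λ / a * m) = Λ * m := by field_simp
    rwa [h2] at h1
  -- the criterion
  have hK : ∀ w : R, (∃ y : E, 1 + Λ * w = y ^ ℓ) ↔
      ∃ z : ResidueField R, z ^ ℓ - z = residue R w := by
    intro w
    constructor
    · rintro ⟨y, hy⟩
      set z : E := (y - 1) / ((ζ' : E) - 1) with hz
      have hyz : 1 + ((ζ' : E) - 1) * z = y := by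
        rw [hz]; field_simp; ring
      have h1 := pow_formula hℓ.out.pos hζ z
      rw [hyz, ← hy] at h1
      have hGw : G (ζ' : E) ℓ z = w := by
        have h2 : Λ * w = Λ * G (ζ' : E) ℓ z := add_left_cancel h1
        exact (mul_left_cancel₀ hΛ0 h2).symm
      have hzR : z ∈ R := by
        by_contra hzR
        have hz1 : 1 < R.valuation z := by
          rw [← not_le, R.valuation_le_one_iff]; exact hzR
        have h3 : R.valuation (G (ζ' : E) ℓ z) = R.valuation z ^ ℓ := by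
          have h5 : ∀ i ∈ Finset.range ℓ, R.valuation (z - θ (ζ' : E) i) = R.valuation z := by
            intro i _
            refine Valuation.map_sub_eq_of_lt_left _ ?_
            refine lt_of_le_of_lt ?_ hz1
            rw [← coe_θ]
            exact R.valuation_le_one _
          rw [G, map_prod, Finset.prod_congr rfl h5, Finset.prod_const, Finset.card_range]
        have h4 : 1 < R.valuation (G (ζ' : E) ℓ z) := by
          rw [h3]; exact one_lt_pow₀ hz1 hℓ.out.ne_zero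
        rw [hGw] at h4
        exact absurd (R.valuation_le_one w) (not_le.2 h4)
      refine ⟨residue R ⟨z, hzR⟩, ?_⟩
      rw [← residue_G hζ1]
      congr 1
      apply Subtype.ext
      rw [coe_G]
      exact hGw
    · rintro ⟨z, hz⟩
      obtain ⟨z, rfl⟩ := residue_surjective z
      rw [← residue_G hζ1, residue_eq_iff, coe_G] at hz
      have h1 := pow_formula hℓ.out.pos hζ (z : E)
      have h2 : R.valuation (1 + ((ζ' : E) - 1) * z) = 1 := by
        refine val_unit ?_
        rw [map_mul]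
        exact lt_of_le_of_lt (mul_le_of_le_one_right' (R.valuation_le_one z)) hl
      have h3 := hmB ((1 + ((ζ' : E) - 1) * z) ^ ℓ) (w - G (ζ' : E) ℓ z)
        (by rw [map_pow, h2, one_pow]) (by rw [Valuation.map_sub_swap]; exact hz) ⟨_, rfl⟩
      obtain ⟨y, hy⟩ := h3
      refine ⟨y, ?_⟩
      rw [← hy, h1, hΛ]
      ring
  -- the Baldwin-Saxl condition
  obtain ⟨n, hn⟩ := hVC
  have hbs : ∀ a : Fin (n + 2) → ResidueField R, ∃ i, ∀ y,
      (∀ j, j ≠ i → ∃ x, y = a j * (x ^ ℓ - x)) → ∃ x, y = a i * (x ^ ℓ - x) := by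
    intro α
    by_contra hcon
    push Not at hcon
    choose g hg1 hg2 using hcon
    have hα0 : ∀ j, α j ≠ 0 := by
      intro j hj
      obtain ⟨i, hi⟩ : ∃ i : Fin (n + 2), j ≠ i := by
        obtain ⟨i, hi⟩ := exists_ne j
        exact ⟨i, hi.symm⟩
      obtain ⟨x, hx⟩ := hg1 i j hi
      rw [hj, zero_mul] at hx
      exact hg2 i 0 (by rw [hx, zero_pow hℓ.out.ne_zero, sub_self, mul_zero])
    choose β hβ using fun j => residue_surjective (R := R) (α j)⁻¹
    choose γ hγ using fun j => residue_surjective (R := R) (g j)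
    have hadd : ∀ (j : Fin (n + 2)) (s : Finset (Fin (n + 2))), (∀ i ∈ s, j ≠ i) →
        ∃ x, ∑ i ∈ s, g i = α j * (x ^ ℓ - x) := by
      intro j s
      induction s using Finset.induction_on with
      | empty =>
        intro _
        exact ⟨0, by rw [Finset.sum_empty, zero_pow hℓ.out.ne_zero, sub_self, mul_zero]⟩
      | insert i s his ih =>
        intro hs
        obtain ⟨x, hx⟩ := ih fun i' hi' => hs i' (Finset.mem_insert_of_mem hi')
        obtain ⟨x', hx'⟩ := hg1 i j (hs i (Finset.mem_insert_self _ _))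
        refine ⟨x' + x, ?_⟩
        rw [Finset.sum_insert his, hx, hx', add_pow_char]
        ring
    have hmem : ∀ (j : Fin (n + 2)) (J : Finset (Fin (n + 2))),
        (∃ x, ∑ i ∈ Jᶜ, g i = α j * (x ^ ℓ - x)) ↔ j ∈ J := by
      intro j J
      constructor
      · rintro ⟨x, hx⟩
        by_contra hj
        have hjc : j ∈ Jᶜ := Finset.mem_compl.2 hj
        rw [← Finset.add_sum_erase _ _ hjc] at hx
        obtain ⟨x', hx'⟩ := hadd j (Jᶜ.erase j) fun i hi => (Finset.ne_of_mem_erase hi).symm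
        refine hg2 j (x - x') ?_
        rw [sub_pow_char]
        linear_combination hx - hx'
      · intro hj
        exact hadd j Jᶜ fun i hi h => Finset.mem_compl.1 hi (h ▸ hj)
    have hcrit : ∀ (j : Fin (n + 2)) (J : Finset (Fin (n + 2))),
        (∃ y : E, 1 + Λ * (β j : E) * ((∑ i ∈ Jᶜ, γ i : R) : E) = y ^ ℓ) ↔ j ∈ J := by
      intro j J
      rw [← hmem j J]
      have h1 := hK (β j * ∑ i ∈ Jᶜ, γ i)
      rw [MulMemClass.coe_mul, ← mul_assoc] at h1
      rw [h1, map_mul, hβ, map_sum]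
      simp only [hγ]
      refine exists_congr fun z => ?_
      constructor
      · intro h
        rw [h, mul_inv_cancel_left₀ (hα0 j)]
      · intro h
        rw [h, inv_mul_cancel_left₀ (hα0 j)]
    obtain ⟨J, hJ⟩ := hn fun i => Λ * (β (Fin.castAdd 2 i) : E)
    set J' : Finset (Fin (n + 2)) := J.map (Fin.castAddEmb 2) with hJ'
    obtain ⟨i, hi⟩ := hJ ((∑ i ∈ J'ᶜ, γ i : R) : E) (fun i => by
      rw [map_mul, map_mul]
      refine lt_of_le_of_lt (mul_le_of_le_one_right' (R.valuation_le_one _)) ?_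
      exact lt_of_le_of_lt (mul_le_of_le_one_right' (R.valuation_le_one _)) hΛ1)
    apply hi
    rw [hcrit]
    rw [hJ']
    simp
  obtain ⟨z, hz⟩ := as_surj_of_bs (p := ℓ) (n + 2) hbs
    (residue R ⟨a / Λ * u, by
      rw [← R.valuation_le_one_iff, map_mul, map_div₀, h, div_self hll, one_mul]
      exact (R.valuation_le_one_iff u).2 hu⟩)
  obtain ⟨y, hy⟩ := (hK _).2 ⟨z, hz⟩
  refine ⟨y, ?_⟩
  rw [← hy]
  field_simp

/-- The third case: the residue field is perfect. -/
theorem star_case2 [hℓ : Fact ℓ.Prime] (hBR : B ≤ R) (ha : R.valuation a < 1)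
    (haB : ∀ b ∈ B, ∃ y : E, 1 + a * b = y ^ ℓ) (hℓR : R.valuation (ℓ : E) < 1) {ζ : E}
    (hζ : IsPrimitiveRoot ζ ℓ) (h : R.valuation ((ζ - 1) ^ ℓ) < R.valuation a)
    {u : E} (hu : u ∈ R) : ∃ y : E, 1 + a * u = y ^ ℓ := by
  classical
  have := charP_residue hℓR
  obtain ⟨ζ', rfl, hζ1⟩ := exists_zeta hℓR hζ.pow_eq_one
  set c : E := (ζ' : E) - 1 with hc
  have hl : R.valuation c < 1 := by
    have : residue R (ζ' - 1) = 0 := by rw [map_sub, hζ1, map_one, sub_self]
    exact (residue_zero_iff _).1 this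
  have hl0 : c ≠ 0 := sub_ne_zero.2 (hζ.ne_one hℓ.out.one_lt)
  have ha0 : a ≠ 0 := by
    rintro rfl
    rw [map_zero] at h
    exact absurd h (not_lt.2 zero_le)
  have hva : R.valuation a ≠ 0 := by rwa [Ne, map_eq_zero]
  -- units of `R` which are in `B`
  have key : ∀ w : R, R.valuation (w : E) = 1 → (w : E) ∈ B → ∃ t q : R, t ≠ 0 ∧
      R.valuation (t : E) < 1 ∧ residue R q = 1 ∧ a * w = (c / t) ^ ℓ * q := by
    intro w hw hwB
    obtain ⟨y, hy⟩ := haB w hwB
    set z : E := (y - 1) / c with hz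
    have hyz : 1 + c * z = y := by
      rw [hz]; field_simp; ring
    have h1 := pow_formula hℓ.out.pos hζ z
    rw [← hc, hyz, ← hy] at h1
    have hG : a * w = c ^ ℓ * G (ζ' : E) ℓ z := add_left_cancel h1
    have hz1 : 1 < R.valuation z := by
      by_contra hz1
      rw [not_lt] at hz1
      have hzR : z ∈ R := (R.valuation_le_one_iff z).1 hz1
      have h2 : R.valuation (G (ζ' : E) ℓ z) ≤ 1 := by
        have := R.valuation_le_one (G ζ' ℓ (⟨z, hzR⟩ : R))
        rwa [coe_G] at this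
      have h3 : R.valuation a ≤ R.valuation (c ^ ℓ) := by
        have h4 : R.valuation (a * w) = R.valuation a := by rw [map_mul, hw, mul_one]
        rw [← h4, hG, map_mul]
        exact mul_le_of_le_one_right' h2
      exact absurd h (not_lt.2 h3)
    have hz0 : z ≠ 0 := by
      rintro hz0
      rw [hz0, map_zero] at hz1
      exact absurd hz1 (not_lt.2 zero_le)
    have hzi : R.valuation z⁻¹ < 1 := by
      rw [map_inv₀]
      exact inv_lt_one_of_one_lt₀ hz1
    set t : R := ⟨z⁻¹, mem_of_lt hzi⟩ with ht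
    have htr : residue R t = 0 := (residue_zero_iff t).2 hzi
    refine ⟨t, ∏ i ∈ Finset.range ℓ, (1 - θ ζ' i * t), ?_, hzi, ?_, ?_⟩
    · intro h0
      have := congrArg (fun x : R => (x : E)) h0
      exact inv_ne_zero hz0 this
    · rw [map_prod]
      refine Finset.prod_eq_one fun i _ => ?_
      rw [map_sub, map_one, map_mul, htr, mul_zero, sub_zero]
    · have h5 : (((∏ i ∈ Finset.range ℓ, (1 - θ ζ' i * t) : R)) : E) =
          ∏ i ∈ Finset.range ℓ, (1 - θ (ζ' : E) i * z⁻¹) := by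
        simp [coe_θ, ht]
      have h6 : (c / (t : E)) ^ ℓ = c ^ ℓ * ∏ i ∈ Finset.range ℓ, z := by
        rw [Finset.prod_const, Finset.card_range, ht]
        simp only [div_inv_eq_mul]
        rw [mul_pow]
      rw [hG, G, h5, h6, mul_assoc, ← Finset.prod_mul_distrib]
      congr 1
      refine Finset.prod_congr rfl fun i _ => ?_
      field_simp
  obtain ⟨t, q, ht0, ht1, hq, htq⟩ := key 1 (by simp) (by exact B.one_mem)
  have ht0' : (t : E) ≠ 0 := fun h0 => ht0 (Subtype.ext h0)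
  have hq1 : R.valuation (q : E) = 1 := by
    apply le_antisymm (R.valuation_le_one q)
    rw [← not_lt, ← residue_zero_iff, hq]
    exact one_ne_zero
  have hq0 := ne_zero_of_unit hq1
  have hct : a = (c / t) ^ ℓ * q := by simpa using htq
  -- the residue field is perfect
  have hperf0 : ∀ w : R, R.valuation (w : E) = 1 → (w : E) ∈ B → ∃ x : R,
      residue R x ^ ℓ = residue R w := by
    intro w hw hwB
    obtain ⟨t', q', htp0, ht1', hq', htq'⟩ := key w hw hwB
    have ht0'' : (t' : E) ≠ 0 := fun h0 => htp0 (Subtype.ext h0)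
    have hq1' : R.valuation (q' : E) = 1 := by
      apply le_antisymm (R.valuation_le_one q')
      rw [← not_lt, ← residue_zero_iff, hq']
      exact one_ne_zero
    have hq0' := ne_zero_of_unit hq1'
    have h1 : ((t : E) / t') ^ ℓ * q' = w * q := by
      have h2 : (c / t) ^ ℓ * q * w = (c / t') ^ ℓ * q' := by rw [← hct, htq']
      have hc0 : c ^ ℓ ≠ 0 := pow_ne_zero _ hl0
      have hta : (t : E) ^ ℓ ≠ 0 := pow_ne_zero _ ht0'
      have htb : (t' : E) ^ ℓ ≠ 0 := pow_ne_zero _ ht0''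
      rw [div_pow, div_pow] at h2
      rw [div_pow]
      field_simp at h2 ⊢
      linear_combination -h2
    have h3 : R.valuation ((t : E) / t') = 1 := by
      have h4 := congrArg R.valuation h1
      rw [map_mul, map_mul, hw, hq1, hq1', mul_one, mul_one, map_pow] at h4
      exact (pow_eq_one_iff_of_nonneg zero_le hℓ.out.ne_zero).1 h4
    refine ⟨⟨(t : E) / t', (R.valuation_le_one_iff _).1 h3.le⟩, ?_⟩
    have h5 : (⟨(t : E) / t', (R.valuation_le_one_iff _).1 h3.le⟩ : R) ^ ℓ * q' = w * q :=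
      Subtype.ext h1
    have h6 := congrArg (residue R) h5
    rwa [map_mul, map_mul, hq, hq', mul_one, mul_one, map_pow] at h6
  have hperf : ∀ w : R, ∃ x : R, residue R x ^ ℓ = residue R w := by
    intro w
    by_cases hw : R.valuation (w : E) < 1
    · refine ⟨0, ?_⟩
      rw [map_zero, zero_pow hℓ.out.ne_zero, eq_comm, residue_zero_iff]
      exact hw
    have hw1 : R.valuation (w : E) = 1 := le_antisymm (R.valuation_le_one w) (not_lt.1 hw)
    have hw0 := ne_zero_of_unit hw1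
    rcases B.mem_or_inv_mem (w : E) with hB | hB
    · exact hperf0 w hw1 hB
    · have hwi : R.valuation ((w : E)⁻¹) = 1 := by rw [map_inv₀, hw1, inv_one]
      obtain ⟨x, hx⟩ := hperf0 ⟨(w : E)⁻¹, (R.valuation_le_one_iff _).1 hwi.le⟩ hwi hB
      have h1 : w * ⟨(w : E)⁻¹, (R.valuation_le_one_iff _).1 hwi.le⟩ = 1 :=
        Subtype.ext (mul_inv_cancel₀ hw0)
      have h2 := congrArg (residue R) h1
      rw [map_mul, map_one, ← hx] at h2
      have h3 : residue R x ≠ 0 := by
        intro h0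
        rw [h0, zero_pow hℓ.out.ne_zero, mul_zero] at h2
        exact zero_ne_one h2
      have h4 : R.valuation (x : E) = 1 := by
        apply le_antisymm (R.valuation_le_one x)
        rw [← not_lt, ← residue_zero_iff]
        exact h3
      have hxi : R.valuation ((x : E)⁻¹) = 1 := by rw [map_inv₀, h4, inv_one]
      refine ⟨⟨(x : E)⁻¹, (R.valuation_le_one_iff _).1 hxi.le⟩, ?_⟩
      have h5 : x * ⟨(x : E)⁻¹, (R.valuation_le_one_iff _).1 hxi.le⟩ = 1 :=
        Subtype.ext (mul_inv_cancel₀ (ne_zero_of_unit h4))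
      have h6 := congrArg (residue R) h5
      rw [map_mul, map_one] at h6
      set X := residue R x
      set Y := residue R ⟨(x : E)⁻¹, (R.valuation_le_one_iff _).1 hxi.le⟩
      have h7 : X ^ ℓ * Y ^ ℓ = 1 := by rw [← mul_pow, h6, one_pow]
      calc Y ^ ℓ = (residue R w * X ^ ℓ) * Y ^ ℓ := by rw [h2, one_mul]
        _ = residue R w := by rw [mul_assoc, h7, mul_one]
  obtain ⟨x, hx⟩ := hperf ⟨u, hu⟩
  -- `(1 + z x) ^ ℓ` with `z = c / t`
  have hzx : R.valuation ((c / t) * x) < 1 := by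
    have h1 : R.valuation (c / t) ^ ℓ < 1 := by
      rw [← map_pow]
      have : (c / t) ^ ℓ = a / q := by rw [hct]; field_simp
      rw [this, map_div₀, hq1, div_one]
      exact ha
    have h2 : R.valuation (c / t) < 1 := by
      by_contra h2
      exact absurd h1 (not_lt.2 (one_le_pow₀ (not_lt.1 h2)))
    rw [map_mul]
    exact lt_of_le_of_lt (mul_le_of_le_one_right' (R.valuation_le_one x)) h2
  have h1 := pow_formula hℓ.out.pos hζ ((x : E) / t)
  have h2 : ((ζ' : E) - 1) * ((x : E) / t) = (c / t) * x := by rw [hc]; ring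
  rw [h2] at h1
  set p : R := ∏ i ∈ Finset.range ℓ, (x - θ ζ' i * t) with hp
  have htr : residue R t = 0 := (residue_zero_iff t).2 ht1
  have hpr : residue R p = residue R x ^ ℓ := by
    have h3 : ∀ i ∈ Finset.range ℓ, residue R (x - θ ζ' i * t) = residue R x := by
      intro i _
      rw [map_sub, map_mul, htr, mul_zero, sub_zero]
    rw [hp, map_prod, Finset.prod_congr rfl h3, Finset.prod_const, Finset.card_range]
  have hpE : (p : E) = t ^ ℓ * G (ζ' : E) ℓ ((x : E) / t) := by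
    have h4 : (t : E) ^ ℓ = ∏ i ∈ Finset.range ℓ, (t : E) := by
      rw [Finset.prod_const, Finset.card_range]
    rw [h4, G, ← Finset.prod_mul_distrib, hp]
    push_cast
    refine Finset.prod_congr rfl fun i _ => ?_
    rw [coe_θ]
    field_simp
  have h3 : 1 + a * u = (1 + (c / t) * x) ^ ℓ + a * (u - p / q) := by
    have h5 : c ^ ℓ * G (ζ' : E) ℓ ((x : E) / t) = a * (p / q) := by
      have h6 : (c / (t : E)) ^ ℓ * (t : E) ^ ℓ = c ^ ℓ := by
        rw [← mul_pow, div_mul_cancel₀ _ ht0']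
      rw [hpE, ← h6]
      conv_rhs => rw [hct]
      field_simp
    rw [h1, ← hc, h5]
    ring
  rw [h3]
  refine pert1 hBR haB (by rw [map_pow, val_unit hzx, one_pow]) ?_ ⟨_, rfl⟩
  have h6 : residue R (⟨u, hu⟩ * q - p) = 0 := by
    rw [map_sub, map_mul, hq, mul_one, hpr, hx, sub_self]
  have h7 := (residue_zero_iff _).1 h6
  have h8 : u - p / q = (u * q - p) / q := by field_simp
  rw [h8, map_div₀, hq1, div_one]
  exact h7

/-- In the coarse valuation ring all the elements `1 + a * u` are `ℓ`-th powers. -/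
theorem star [hℓ : Fact ℓ.Prime] (hBR : B ≤ R) (ha : R.valuation a < 1)
    (haB : ∀ b ∈ B, ∃ y : E, 1 + a * b = y ^ ℓ) {ζ : E}
    (hζ : IsPrimitiveRoot ζ ℓ) (hinf : Infinite (ResidueField R))
    (hVC : ∃ n : ℕ, ∀ b : Fin n → E, ∃ J : Finset (Fin n), ∀ x : E,
      (∀ i, R.valuation (b i * x) < 1) → ∃ i, ¬ ((∃ y : E, 1 + b i * x = y ^ ℓ) ↔ i ∈ J))
    {u : E} (hu : u ∈ R) : ∃ y : E, 1 + a * u = y ^ ℓ := by
  have hle : R.valuation (ℓ : E) ≤ 1 := by
    exact_mod_cast R.valuation_le_one (ℓ : R)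
  rcases hle.lt_or_eq with h | h
  · rcases lt_trichotomy (R.valuation a) (R.valuation ((ζ - 1) ^ ℓ)) with h1 | h1 | h1
    · refine star_case0 hBR haB h hζ hu ?_
      rw [map_mul]
      exact lt_of_le_of_lt (mul_le_of_le_one_right' ((R.valuation_le_one_iff u).2 hu)) h1
    · exact star_case1 hBR haB h hζ hinf h1 hVC hu
    · exact star_case2 hBR ha haB h hζ h1 hu
  · exact star_tame hBR ha haB h hu

end cases

end Pool.Agent.NIPFields.LI
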