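import Mathlib
import Pool.Agent.NIPFields.LI.Star
import Pool.Agent.NIPFields.LI.Coarse
import Pool.Agent.NIPFields.LC.LCThm

set_option autoImplicit false

/-!
# The lattice lemma without an index condition
-/

namespace Pool.Agent.NIPFields.LI

open IsLocalRing Filter
open Pool.Agent.NIPFields.LC

universe u

section seq

variable {F : Type u} [Field F] {B : ValuationSubring F} {ℓ : ℕ}

/-- square roots -/
theorem exists_sq (hnp : ∀ π, B.valuation π < 1 → ∃ m, B.valuation m < 1 ∧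
      B.valuation π < B.valuation m) (m : F) (hm : B.valuation m < 1) :
    ∃ z, B.valuation z < 1 ∧ B.valuation m ≤ B.valuation (z ^ 2) := by
  obtain ⟨m1, h1, h2⟩ := hnp m hm
  by_cases hm1 : m1 = 0
  · exfalso
    rw [hm1, map_zero] at h2
    exact absurd h2 (not_lt.2 zero_le)
  have hv1 : B.valuation m1 ≠ 0 := (map_ne_zero _).2 hm1
  have ht : B.valuation (m / m1) < 1 := by
    rw [map_div₀]
    exact (div_lt_one₀ (zero_lt_iff.2 hv1)).2 h2
  have hmm : m = m1 * (m / m1) := by field_simp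
  rcases le_total (B.valuation m1) (B.valuation (m / m1)) with h | h
  · refine ⟨m / m1, ht, ?_⟩
    calc B.valuation m = B.valuation m1 * B.valuation (m / m1) := by
          rw [← map_mul, ← hmm]
      _ ≤ B.valuation (m / m1) * B.valuation (m / m1) := mul_le_mul_left h _
      _ = B.valuation ((m / m1) ^ 2) := by rw [map_pow, sq]
  · refine ⟨m1, h1, ?_⟩
    calc B.valuation m = B.valuation m1 * B.valuation (m / m1) := by
          rw [← map_mul, ← hmm]
      _ ≤ B.valuation m1 * B.valuation m1 := mul_le_mul_right h _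
      _ = B.valuation (m1 ^ 2) := by rw [map_pow, sq]

theorem exists_root (hnp : ∀ π, B.valuation π < 1 → ∃ m, B.valuation m < 1 ∧
      B.valuation π < B.valuation m) (k : ℕ) : ∀ m : F, B.valuation m < 1 →
    ∃ z, B.valuation z < 1 ∧ B.valuation m ≤ B.valuation (z ^ 2 ^ k) := by
  induction k with
  | zero => exact fun m hm => ⟨m, hm, by simp⟩
  | succ k ih =>
    intro m hm
    obtain ⟨z, hz, hmz⟩ := exists_sq hnp m hm
    obtain ⟨w, hw, hzw⟩ := ih z hz
    refine ⟨w, hw, hmz.trans ?_⟩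
    have h1 : w ^ 2 ^ (k + 1) = (w ^ 2 ^ k) ^ 2 := by rw [← pow_mul, ← pow_succ]
    rw [h1, map_pow, map_pow B.valuation (w ^ 2 ^ k)]
    exact pow_le_pow_left₀ zero_le hzw 2

/-- The sequences at the cut. -/
theorem exists_seq {d : F} (hd : d ≠ 0) (hdT : ∀ x ∈ B, ∃ y : F, 1 + d * x = y ^ ℓ)
    (hnil : ∀ m, B.valuation m < 1 → ∀ u, u ≠ 0 → ∃ n : ℕ, B.valuation (m ^ n) ≤ B.valuation u)
    (hnp : ∀ π, B.valuation π < 1 → ∃ m, B.valuation m < 1 ∧ B.valuation π < B.valuation m)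
    {m0 : F} (hm0 : B.valuation m0 < 1) (hm0T : ∀ y, 1 + m0 ≠ y ^ ℓ) (k : ℕ) :
    ∃ x a u : F, B.valuation x < 1 ∧ (∀ n ≤ k, B.valuation m0 ≤ B.valuation (x ^ n)) ∧
      B.valuation a ≤ B.valuation m0 ∧ B.valuation (x * u) ≤ 1 ∧
      (∀ b ∈ B, ∃ y : F, 1 + a * b = y ^ ℓ) ∧ ∀ y : F, 1 + a * u ≠ y ^ ℓ := by
  classical
  obtain ⟨x, hx, hxk⟩ := exists_root hnp k m0 hm0
  have hm00 : m0 ≠ 0 := by
    rintro rfl
    exact hm0T 1 (by rw [add_zero, one_pow])
  have hx0 : x ≠ 0 := by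
    rintro rfl
    rw [zero_pow (by positivity), map_zero] at hxk
    exact hm00 ((map_eq_zero B.valuation).1 (le_antisymm hxk zero_le))
  have hanti : ∀ {i j : ℕ}, i ≤ j → B.valuation (x ^ j) ≤ B.valuation (x ^ i) := by
    intro i j hij
    rw [map_pow, map_pow]
    exact pow_le_pow_of_le_one zero_le hx.le hij
  -- the submodule
  have hNle : ∀ {y z : F}, B.valuation y ≤ B.valuation z → (∀ b ∈ B, ∃ w : F, 1 + z * b = w ^ ℓ) →
      ∀ b ∈ B, ∃ w : F, 1 + y * b = w ^ ℓ := by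
    intro y z hyz hz b hb
    by_cases hz0 : z = 0
    · have : y = 0 := by
        rw [hz0, map_zero] at hyz
        exact (map_eq_zero B.valuation).1 (le_antisymm hyz zero_le)
      exact ⟨1, by rw [this, zero_mul, add_zero, one_pow]⟩
    · have h1 : y / z ∈ B := by
        rw [← B.valuation_le_one_iff, map_div₀]
        exact div_le_one_of_le₀ hyz zero_le
      obtain ⟨w, hw⟩ := hz (y / z * b) (B.mul_mem _ _ h1 hb)
      refine ⟨w, ?_⟩
      rw [← hw]
      field_simp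
  have hex : ∃ j : ℕ, ∀ b ∈ B, ∃ w : F, 1 + (m0 * x ^ j) * b = w ^ ℓ := by
    obtain ⟨n, hn⟩ := hnil x hx (d / m0) (div_ne_zero hd hm00)
    refine ⟨n, hNle ?_ hdT⟩
    rw [map_mul]
    calc B.valuation m0 * B.valuation (x ^ n) ≤ B.valuation m0 * B.valuation (d / m0) := by gcongr
      _ = B.valuation d := by rw [← map_mul, mul_div_cancel₀ _ hm00]
  obtain ⟨j, hj, hjmin⟩ : ∃ j : ℕ, (∀ b ∈ B, ∃ w : F, 1 + (m0 * x ^ j) * b = w ^ ℓ) ∧
      ∀ i < j, ¬ ∀ b ∈ B, ∃ w : F, 1 + (m0 * x ^ i) * b = w ^ ℓ :=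
    ⟨Nat.find hex, Nat.find_spec hex, fun i hi => Nat.find_min hex hi⟩
  have hj0 : j ≠ 0 := by
    rintro rfl
    obtain ⟨w, hw⟩ := hj 1 B.one_mem
    exact hm0T w (by simpa using hw)
  have h1 := hjmin (j - 1) (by omega)
  push Not at h1
  obtain ⟨b, hb, hbT⟩ := h1
  refine ⟨x, m0 * x ^ j, b / x, hx, ?_, ?_, ?_, hj, ?_⟩
  · intro n hn
    exact hxk.trans (hanti (hn.trans Nat.lt_two_pow_self.le))
  · rw [map_mul, map_pow]
    exact mul_le_of_le_one_right' (pow_le_one₀ zero_le hx.le)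
  · rw [mul_div_cancel₀ _ hx0]
    exact (B.valuation_le_one_iff b).2 hb
  · intro y hy
    apply hbT y
    rw [← hy]
    obtain ⟨i, rfl⟩ : ∃ i, j = i + 1 := ⟨j - 1, by omega⟩
    rw [Nat.add_sub_cancel, pow_succ]
    field_simp

end seq

section main

variable {F : Type u} [Field F] {B : ValuationSubring F} {ℓ : ℕ}

theorem germ_pow {U : Ultrafilter (ULift.{u} ℕ)} {f : ULift.{u} ℕ → F} :
    (∃ y : Germ (U : Filter (ULift.{u} ℕ)) F,
      (↑f : Germ (U : Filter (ULift.{u} ℕ)) F) = y ^ ℓ) ↔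
      ∀ᶠ t in (U : Filter (ULift.{u} ℕ)), ∃ y, f t = y ^ ℓ := by
  classical
  constructor
  · rintro ⟨y, hy⟩
    induction y using Germ.inductionOn with | _ g
    rw [← Germ.coe_pow, Germ.coe_eq] at hy
    filter_upwards [hy] with t ht
    exact ⟨g t, ht⟩
  · intro h
    have h1 : ∀ t, ∃ y, (∃ y, f t = y ^ ℓ) → f t = y ^ ℓ := by
      intro t
      by_cases h : ∃ y, f t = y ^ ℓ
      · obtain ⟨y, hy⟩ := h
        exact ⟨y, fun _ => hy⟩
      · exact ⟨0, fun h' => absurd h' h⟩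
    choose g hg using h1
    refine ⟨↑g, ?_⟩
    rw [← Germ.coe_pow, Germ.coe_eq]
    filter_upwards [h] with t ht
    exact hg t ht

/-- The VC condition for the ultrapower. -/
theorem star_vc (U : Ultrafilter (ULift.{u} ℕ))
    (hVC : ∃ n : ℕ, ∀ b : Fin n → F, ∃ J : Finset (Fin n), ∀ x : F,
      (∀ i, B.valuation (b i * x) < 1) → ∃ i, ¬ ((∃ y, 1 + b i * x = y ^ ℓ) ↔ i ∈ J)) :
    ∃ n : ℕ, ∀ b : Fin n → Germ (U : Filter (ULift.{u} ℕ)) F, ∃ J : Finset (Fin n),
      ∀ x : Germ (U : Filter (ULift.{u} ℕ)) F,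
      (∀ i, (UV U B).valuation (b i * x) < 1) → ∃ i, ¬ ((∃ y, 1 + b i * x = y ^ ℓ) ↔ i ∈ J) := by
  classical
  obtain ⟨n, hn⟩ := hVC
  refine ⟨n, fun b => ?_⟩
  choose β hβ using fun i => Quotient.exists_rep (b i)
  choose J hJ using fun t : ULift.{u} ℕ => hn fun i => β i t
  obtain ⟨J₀, hJ₀⟩ : ∃ J₀, ∀ᶠ t in (U : Filter (ULift.{u} ℕ)), J t = J₀ := by
    by_contra hcon
    push Not at hcon
    have h1 : ∀ J₀ : Finset (Fin n), ∀ᶠ t in (U : Filter (ULift.{u} ℕ)), J t ≠ J₀ := by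
      intro J₀
      exact hcon J₀
    have h2 := (eventually_all (l := (U : Filter (ULift.{u} ℕ)))).2 h1
    obtain ⟨t, ht⟩ := h2.exists
    exact ht (J t) rfl
  refine ⟨J₀, fun x hx => ?_⟩
  induction x using Germ.inductionOn with | _ g
  by_contra hcon
  push Not at hcon
  have h3 : ∀ i, b i * (↑g : Germ (U : Filter (ULift.{u} ℕ)) F) = ↑(β i * g) := by
    intro i
    rw [← hβ i]
    rfl
  have h4 : ∀ i, ∀ᶠ t in (U : Filter (ULift.{u} ℕ)), B.valuation (β i t * g t) < 1 := by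
    intro i
    have h5 := hx i
    rw [h3, ← map_one (UV U B).valuation, ← Germ.coe_one, UV_lt] at h5
    filter_upwards [h5] with t ht
    simpa using ht
  have h6 : ∀ i, ∀ᶠ t in (U : Filter (ULift.{u} ℕ)),
      ((∃ y, 1 + β i t * g t = y ^ ℓ) ↔ i ∈ J₀) := by
    intro i
    have h7 := hcon i
    rw [h3, ← Germ.coe_one, ← Germ.coe_add, germ_pow] at h7
    by_cases hi : i ∈ J₀
    · filter_upwards [h7.2 hi] with t ht
      exact ⟨fun _ => hi, fun _ => ht⟩
    · have h8 := Ultrafilter.eventually_not.2 (fun h => hi (h7.1 h))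
      filter_upwards [h8] with t ht
      exact ⟨fun h => absurd h ht, fun h => absurd h hi⟩
  obtain ⟨t, h9, h10, h11⟩ := (((eventually_all (l := (U : Filter (ULift.{u} ℕ)))).2 h4).and
    (((eventually_all (l := (U : Filter (ULift.{u} ℕ)))).2 h6).and hJ₀)).exists
  obtain ⟨i, hi⟩ := hJ t (g t) h9
  rw [h11] at hi
  exact hi (h10 i)

/-- The lattice lemma for the group of `ℓ`-th powers, without an index condition. -/
theorem lattice_inf (hℓ : ℓ.Prime) {ζ : F} (hζ : IsPrimitiveRoot ζ ℓ) {d : F} (hd : d ≠ 0)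
    (hdT : ∀ x ∈ B, ∃ y : F, 1 + d * x = y ^ ℓ)
    (hnil : ∀ m, B.valuation m < 1 → ∀ u, u ≠ 0 → ∃ n : ℕ, B.valuation (m ^ n) ≤ B.valuation u)
    (hVC : ∃ n : ℕ, ∀ b : Fin n → F, ∃ J : Finset (Fin n), ∀ x : F,
      (∀ i, B.valuation (b i * x) < 1) → ∃ i, ¬ ((∃ y, 1 + b i * x = y ^ ℓ) ↔ i ∈ J)) :
    (∀ m, B.valuation m < 1 → ∃ y, 1 + m = y ^ ℓ) ∨
      ∃ π, B.valuation π < 1 ∧ ∀ m, B.valuation m < 1 → B.valuation m ≤ B.valuation π := by
  classical
  have := Fact.mk hℓ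
  by_contra hcon
  push Not at hcon
  obtain ⟨⟨m0, hm0, hm0T⟩, hnp⟩ := hcon
  choose x a u hx hxn ha hxu haB huT using
    exists_seq hd hdT hnil hnp hm0 hm0T
  have hm00 : m0 ≠ 0 := by
    rintro rfl
    exact hm0T 1 (by rw [add_zero, one_pow])
  have hm0B : m0 ∈ B := (B.valuation_le_one_iff m0).1 hm0.le
  let U : Ultrafilter (ULift.{u} ℕ) := hyperfilter (ULift.{u} ℕ)
  let xs : Germ (U : Filter (ULift.{u} ℕ)) F := ↑(fun t : ULift.{u} ℕ => x t.down)
  let as : Germ (U : Filter (ULift.{u} ℕ)) F := ↑(fun t : ULift.{u} ℕ => a t.down)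
  let us : Germ (U : Filter (ULift.{u} ℕ)) F := ↑(fun t : ULift.{u} ℕ => u t.down)
  let c : Germ (U : Filter (ULift.{u} ℕ)) F := ↑(fun _ : ULift.{u} ℕ => m0)
  have hc : c ∈ UV U B := by
    change (↑(fun _ : ULift.{u} ℕ => m0) : Germ (U : Filter (ULift.{u} ℕ)) F) ∈ UV U B
    rw [mem_UV]
    exact Eventually.of_forall fun _ => hm0B
  have hone : (1 : Germ (U : Filter (ULift.{u} ℕ)) F) = ↑(fun _ : ULift.{u} ℕ => (1 : F)) := rfl
  have hxs1 : (UV U B).valuation xs < 1 := by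
    rw [← map_one (UV U B).valuation, hone]
    exact UV_lt.2 (Eventually.of_forall fun t => by rw [map_one]; exact hx _)
  have hbig : ∀ n : ℕ, ∀ᶠ t in (U : Filter (ULift.{u} ℕ)), n ≤ t.down := by
    intro n
    have h1 : ∀ᶠ t in cofinite, n ≤ (t : ULift.{u} ℕ).down := by
      rw [eventually_cofinite]
      refine Set.Finite.subset ((Set.finite_lt_nat n).image ULift.up) ?_
      intro t ht
      exact ⟨t.down, not_le.1 ht, rfl⟩
    exact (hyperfilter_le_cofinite (α := ULift.{u} ℕ)) h1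
  have hxs0 : xs ≠ 0 := by
    intro h0
    have h1 : (↑(fun t : ULift.{u} ℕ => x t.down) : Germ (U : Filter (ULift.{u} ℕ)) F) =
        ↑(fun _ : ULift.{u} ℕ => (0 : F)) := h0
    rw [Germ.coe_eq] at h1
    obtain ⟨t, ht, ht'⟩ := (h1.and (hbig 1)).exists
    have h2 := hxn t.down 1 ht'
    have ht : x t.down = 0 := ht
    rw [pow_one, ht, map_zero] at h2
    exact hm00 ((map_eq_zero B.valuation).1 (le_antisymm h2 zero_le))
  have hxsinv : xs⁻¹ ∈ coarse hc := by
    intro n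
    have h1 : c * xs⁻¹ ^ n = ↑(fun t : ULift.{u} ℕ => m0 * (x t.down)⁻¹ ^ n) := rfl
    rw [h1, mem_UV]
    filter_upwards [hbig n] with t ht
    rw [← B.valuation_le_one_iff, map_mul, inv_pow, map_inv₀, ← div_eq_mul_inv]
    exact div_le_one_of_le₀ (hxn _ n ht) zero_le
  have hus : us ∈ coarse hc := by
    intro n
    have h1 : c * us ^ n = ↑(fun t : ULift.{u} ℕ => m0 * (u t.down) ^ n) := rfl
    rw [h1, mem_UV]
    filter_upwards [hbig n] with t ht
    rw [← B.valuation_le_one_iff, map_mul]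
    calc B.valuation m0 * B.valuation (u t.down ^ n)
        ≤ B.valuation (x t.down ^ n) * B.valuation (u t.down ^ n) := by
          gcongr
          exact hxn _ n ht
      _ = B.valuation (x t.down * u t.down) ^ n := by rw [← map_mul, ← mul_pow, map_pow]
      _ ≤ 1 := pow_le_one₀ zero_le (hxu _)
  have has : (coarse hc).valuation as < 1 := by
    refine coarse_lt hc (n := 2) ?_
    have h1 : as ^ 2 = ↑(fun t : ULift.{u} ℕ => (a t.down) ^ 2) := rfl
    rw [h1]
    refine UV_lt.2 (Eventually.of_forall fun t => ?_)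
    rw [map_pow]
    calc B.valuation (a t.down) ^ 2 ≤ B.valuation m0 ^ 2 := pow_le_pow_left₀ zero_le (ha _) 2
      _ < B.valuation m0 := by
        rw [sq]
        exact mul_lt_of_lt_one_left (zero_lt_iff.2 ((map_ne_zero _).2 hm00)) hm0
  have hasB : ∀ b ∈ UV U B, ∃ y : Germ (U : Filter (ULift.{u} ℕ)) F, 1 + as * b = y ^ ℓ := by
    intro b hb
    induction b using Germ.inductionOn with | _ g
    rw [mem_UV] at hb
    have h1 : 1 + as * (↑g : Germ (U : Filter (ULift.{u} ℕ)) F) =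
        ↑(fun t : ULift.{u} ℕ => 1 + a t.down * g t) := rfl
    rw [h1, germ_pow]
    filter_upwards [hb] with t ht
    exact haB _ _ ht
  have hζs : IsPrimitiveRoot ((↑(fun _ : ULift.{u} ℕ => ζ) : Germ (U : Filter (ULift.{u} ℕ)) F))
      ℓ := by
    rw [IsPrimitiveRoot.iff_def]
    constructor
    · have h1 : (↑(fun _ : ULift.{u} ℕ => ζ) : Germ (U : Filter (ULift.{u} ℕ)) F) ^ ℓ =
          ↑(fun _ : ULift.{u} ℕ => ζ ^ ℓ) := rfl
      rw [h1, hζ.pow_eq_one]
      rfl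
    · intro l hl
      have h1 : (↑(fun _ : ULift.{u} ℕ => ζ ^ l) : Germ (U : Filter (ULift.{u} ℕ)) F) =
          ↑(fun _ : ULift.{u} ℕ => (1 : F)) := hl
      rw [Germ.coe_eq] at h1
      obtain ⟨t, ht⟩ := h1.exists
      exact hζ.dvd_of_pow_eq_one l ht
  obtain ⟨n, hn⟩ := star_vc U hVC
  obtain ⟨y, hy⟩ := star (le_coarse hc) has hasB hζs (infinite_residue hc hxs1 hxs0 hxsinv)
    ⟨n, fun b => by
      obtain ⟨J, hJ⟩ := hn b
      refine ⟨J, fun z hz => hJ z fun i => ?_⟩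
      have h1 := mem_B (le_coarse hc) (hz i)
      rcases (mem_iff_val.1 h1).lt_or_eq with h2 | h2
      · exact h2
      · exfalso
        have h3 : (b i * z)⁻¹ ∈ coarse hc := by
          refine le_coarse hc (mem_iff_val.2 ?_)
          rw [map_inv₀, h2, inv_one]
        have h4 := coarse_val_one hc (le_coarse hc h1) h3 (by
          intro h0
          rw [h0, map_zero] at h2
          exact zero_ne_one h2)
        exact absurd (hz i) (by rw [h4]; exact lt_irrefl _)⟩ hus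
  have h1 : 1 + as * us = ↑(fun t : ULift.{u} ℕ => 1 + a t.down * u t.down) := rfl
  rw [h1] at hy
  have h2 := germ_pow.1 ⟨y, hy⟩
  obtain ⟨t, y', ht⟩ := h2.exists
  exact huT _ y' ht

end main

end Pool.Agent.NIPFields.LI
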